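import Pool.Agent.helper11.VN.Spec3b
import Pool.Agent.helper51.VQ.DTV

/-!
# Row vn:DTN (MP_07c750_an, project VN): the deterministic conclusion
-/

set_option autoImplicit false

open scoped MatrixGroups ContDiff Topology UpperHalfPlane ComplexConjugate ENNReal
open UpperHalfPlane MeasureTheory Filter Set

namespace Pool.Agent.VN

open Pool.Agent.RS Pool.Agent.VQ
open Pool.Agent.RPQ (CEig mean VV IsOp IsMul OProj wrd PJ nst mks MO Net Cl CkB PN upd Eqd)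

theorem DTN_proof (hI2N : I2N_stmt) (hI3N : I3N_stmt) (hI4N : I4N_stmt) (hI8N : I8N_stmt) (hDTZ : VQ.DTZ_stmt) (hOWZ : VQ.OWZ_stmt)
    (hKSZ : VQ.KSZ_stmt) (hKPZ : VQ.KPZ_stmt) (hPSC : VQ.PSC_stmt) (hMTVN : MTVN_stmt) (hQFM : VQ.QFM_stmt) (hKO1 : RPQ.KO1_stmt)
    (hKO2 : RPQ.KO2_stmt) (hGFD : RS.GFD_stmt) : DTN_stmt := by
  intro Γ F ch k B hΓ hF hch hk
  obtain ⟨C2, hC2, hI2⟩ := hI2N Γ ch k B hΓ hch hk
  obtain ⟨C3, hC3, hI3⟩ := hI3N Γ ch k B hΓ hch hk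
  obtain ⟨C4, hC4, hI4⟩ := hI4N Γ ch k B hΓ hch hk
  obtain ⟨C8, hC8, hI8⟩ := hI8N Γ ch k B hΓ hch hk
  obtain ⟨C, hC1, hCC2, hCC3, hCC4, hCC8⟩ : ∃ C : ℝ, 1 ≤ C ∧ C2 ≤ C ∧ C3 ≤ C ∧ C4 ≤ C ∧ C8 ≤ C :=
    ⟨C2 + C3 + C4 + C8, by linarith, by linarith, by linarith, by linarith, by linarith⟩
  refine ⟨C, hC1, fun A h e b L n hA hh he hb hL hn => ?_⟩
  obtain ⟨d2, R2, hd2, hR2, hI2⟩ := hI2 A (DTV_adm hA hCC2 hC2)
  obtain ⟨d3, R3, hd3, hR3, hI3⟩ := hI3 A (DTV_adm hA hCC3 hC3)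
  obtain ⟨d4, R4, hd4, hR4, hI4⟩ := hI4 A (DTV_adm hA hCC4 hC4)
  obtain ⟨d8, R8, hd8, hR8, hI8⟩ := hI8 A h (DTV_adm hA hCC8 hC8) hh
  obtain ⟨δD, hδD, hDT⟩ := hDTZ e b L n he hb hL hn
  obtain ⟨T2, hT2⟩ := DTV_small d2 δD hd2 hδD
  obtain ⟨T3, hT3⟩ := DTV_small d3 (δD ^ 2) hd3 (by positivity)
  obtain ⟨T3', hT3'⟩ := DTV_small d3 (e / 4) hd3 (by positivity)
  obtain ⟨T8, hT8⟩ := DTV_small d8 (e / 4) hd8 (by positivity)
  obtain ⟨R0, r0, r2, r3, r4, r8, t2, t3, t3', t8⟩ : ∃ R0 : ℝ, 2 ≤ R0 ∧ R2 ≤ R0 ∧ R3 ≤ R0 ∧ R4 ≤ R0 ∧ R8 ≤ R0 ∧ T2 ≤ R0 ∧ T3 ≤ R0 ∧ T3' ≤ R0 ∧ T8 ≤ R0 := by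
    refine ⟨2 + |R2| + |R3| + |R4| + |R8| + |T2| + |T3| + |T3'| + |T8|, ?_, ?_, ?_, ?_, ?_, ?_, ?_, ?_, ?_⟩ <;>
    linarith [abs_nonneg R2, abs_nonneg R3, abs_nonneg R4, abs_nonneg R8, abs_nonneg T2, abs_nonneg T3, abs_nonneg T3', abs_nonneg T8,
      le_abs_self R2, le_abs_self R3, le_abs_self R4, le_abs_self R8, le_abs_self T2, le_abs_self T3, le_abs_self T3', le_abs_self T8]
  refine ⟨δD, R0, hδD, by linarith, ?_⟩
  intro R D f F' μ φ hR hD hE hWd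
  have hRpos : 0 < R := by linarith
  have hPS := hPSC Γ F R hΓ hF
  have hfin : IsFiniteMeasure ((mW R).restrict (DW F)) := ⟨by rw [Measure.restrict_apply_univ]; exact hPS.fin⟩
  have htau : 0 < A.tu R := by
    unfold Prm.tu Prm.sg
    have h1 := Real.log_pos (show (1 : ℝ) < R by linarith)
    have h2 : (0 : ℝ) < A.m := by
      have := hA.m
      exact_mod_cast this
    have h3 := hA.e3
    positivity
  have hUc : Continuous D.U := DTV_contD _ hD.pot.smooth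
  have hφc : Continuous φ := INB_cont φ hE.eig.1
  have hhc : Continuous h := DTV_cont h hh.lip
  have hQm : Measurable (QF D.U ch A.z R φ) := hQFM D.U ch A.z R φ hUc hch hφc
  obtain ⟨m1, m2, -, -, -, -⟩ := hMTVN Γ k B D F f R (A.tu R) e hΓ hD hF hE.sm.inv
  obtain ⟨-, -, m3, m4, m5, m6⟩ := hMTVN Γ k B D F h R (A.tu R) e hΓ hD hF hh.inv
  have hnn0 : 0 ≤ nn F φ := integral_nonneg fun z => by positivity
  obtain ⟨q1, q2, q3⟩ := hI3 R D F f F' μ φ (r3.trans hR) hD hF hE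
  have hKZ : KZ Γ dW (KB D ch A R f) := by
    rw [DTV_KB]
    exact (hKSZ Γ (SL(2, ℝ) × ℝ) (mW R) (DW F) dW hPS).1 _ _ m1.neg (fun γ y => by rw [m2]) (hI4 R D (r4.trans hR) hD).1
  have henorm : ∀ p, ‖QF D.U ch A.z R φ p‖ₑ ^ 2 = ENNReal.ofReal (‖QF D.U ch A.z R φ p‖ ^ 2) := by
    intro p
    rw [ENNReal.ofReal_pow (norm_nonneg _), ofReal_norm]
  have hqi : Integrable (fun p => ‖QF D.U ch A.z R φ p‖ ^ 2) ((mW R).restrict (DW F)) := by
    refine ⟨(hQm.norm.pow_const 2).aestronglyMeasurable, ?_⟩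
    rw [hasFiniteIntegral_iff_ofReal (Eventually.of_forall fun p => by positivity)]
    refine lt_of_le_of_lt (le_of_eq ?_) (lt_of_le_of_lt q1 ENNReal.ofReal_lt_top)
    exact lintegral_congr fun p => (henorm p).symm
  have hQ1 : ∫ p, ‖QF D.U ch A.z R φ p‖ ^ 2 ∂((mW R).restrict (DW F)) ≤ nn F φ := by
    rw [← ENNReal.ofReal_le_ofReal_iff hnn0, ofReal_integral_eq_lintegral_ofReal hqi (Eventually.of_forall fun p => by positivity)]
    refine le_trans (le_of_eq ?_) q1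
    exact lintegral_congr fun p => (henorm p).symm
  -- the window
  have hWm : MeasurableSet {p : SL(2, ℝ) × ℝ | |p.2| ≤ R ^ (-(1 / 4) : ℝ)} :=
    measurableSet_le (continuous_abs.measurable.comp measurable_snd) measurable_const
  have hPW : {p : SL(2, ℝ) × ℝ | |p.2| ≤ R ^ (-(1 / 4) : ℝ)} ∩ DW F = PW F 1 R := by
    ext p
    simp only [PW, DW, Wi, Set.mem_inter_iff, Set.mem_ofPred_eq, Set.mem_prod, Set.mem_univ, and_true, Set.mem_Icc, one_mul, abs_le]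
    exact and_comm
  have hW1 : (1 - R ^ (-d3)) * nn F φ ≤ ∫ p in {p : SL(2, ℝ) × ℝ | |p.2| ≤ R ^ (-(1 / 4) : ℝ)}, ‖QF D.U ch A.z R φ p‖ ^ 2 ∂((mW R).restrict (DW F)) := by
    by_cases hneg : 0 ≤ ∫ p in {p : SL(2, ℝ) × ℝ | |p.2| ≤ R ^ (-(1 / 4) : ℝ)}, ‖QF D.U ch A.z R φ p‖ ^ 2 ∂((mW R).restrict (DW F))
    · rw [← ENNReal.ofReal_le_ofReal_iff hneg, ofReal_integral_eq_lintegral_ofReal hqi.integrableOn (Eventually.of_forall fun p => by positivity)]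
      refine q2.trans (le_of_eq ?_)
      rw [Measure.restrict_restrict hWm, hPW]
      exact lintegral_congr fun p => henorm p
    · exact absurd (integral_nonneg fun p => by positivity) hneg
  have hW2 : ∫ p in {p : SL(2, ℝ) × ℝ | |p.2| ≤ R ^ (-(1 / 4) : ℝ)}ᶜ, ‖QF D.U ch A.z R φ p‖ ^ 2 ∂((mW R).restrict (DW F)) ≤ R ^ (-d3) * nn F φ := by
    have h1 := integral_add_compl hWm hqi
    linarith
  -- the bad set
  have hx0 : (0 : ℝ) ≤ (2 * L + 1) / n := by positivity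
  have hBad : ∫ p in SB D F h e (A.tu R) R, ‖QF D.U ch A.z R φ p‖ ^ 2 ∂((mW R).restrict (DW F)) ≤ ((2 * L + 1) / n + e) * nn F φ := by
    rcases hnn0.eq_or_lt with h0 | h0
    · rw [← h0, mul_zero]
      rw [← h0] at hQ1
      exact (setIntegral_le_integral hqi (Eventually.of_forall fun p => by positivity)).trans hQ1
    · refine DTV_bad hKO1 hKO2 hKPZ hKSZ hOWZ Γ F ch R hPS D A f (QF D.U ch A.z R φ) (SB D F h e (A.tu R) R) m5 m6 hKZ hQm (nn F φ) δD _ b L n hL h0 hδD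
        q1 ?_ (fun H _ _ _ T P Φ => hDT H T P Φ) hWd
      intro T hT
      refine ⟨?_, fun Φ hΦ => ?_⟩
      · refine (hI2 R D F f (r2.trans hR) hD hF hE.sm T hT).trans ?_
        have := hT2 R (t2.trans hR)
        linarith
      · exact (q3 T hT Φ hΦ).trans (mul_le_mul_of_nonneg_right (hT3 R (t3.trans hR)) hnn0)
  -- the mean
  have hvol : volume F < ⊤ := by
    rw [← (hGFD Γ F hΓ hF).1.2.1]
    exact (hGFD Γ F hΓ hF).1.2.2.1
  have hmn := RPQ.DET_mean F hvol h hhc hh.bd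
  have hms := DTV_mass (μ := (mW R).restrict (DW F)) (avP D h (A.tu R)) (fun p => ‖QF D.U ch A.z R φ p‖ ^ 2) m3 hqi (mean F h) e
    (fun p => by positivity) (fun p => by
      have h1 := DTV_av D h hh.bd (A.tu R) htau p
      rw [abs_le]
      constructor
      · linarith [hmn.2]
      · linarith [hmn.1]) he.le (SB D F h e (A.tu R) R) {p : SL(2, ℝ) × ℝ | |p.2| ≤ R ^ (-(1 / 4) : ℝ)} m5 hWm (fun p hp => hp)
  have h8 := hI8 R D F f F' μ φ (r8.trans hR) hD hF hE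
  have s3 := hT3' R (t3'.trans hR)
  have s8 := hT8 R (t8.trans hR)
  have p3 : 0 < R ^ (-d3) := Real.rpow_pos_of_pos hRpos _
  have hlow : (1 - R ^ (-d3)) * nn F φ ≤ ∫ p, ‖QF D.U ch A.z R φ p‖ ^ 2 ∂((mW R).restrict (DW F)) :=
    hW1.trans (setIntegral_le_integral hqi (Eventually.of_forall fun p => by positivity))
  set Qt := ∫ p, ‖QF D.U ch A.z R φ p‖ ^ 2 ∂((mW R).restrict (DW F)) with hQt
  set X := ∫ p, avP D h (A.tu R) p * ‖QF D.U ch A.z R φ p‖ ^ 2 ∂((mW R).restrict (DW F)) with hX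
  have g1 := abs_le.1 hms
  have g2 := abs_le.1 h8
  have g3 : |mean F h * Qt - mean F h * nn F φ| ≤ R ^ (-d3) * nn F φ := by
    have e1 : mean F h * Qt - mean F h * nn F φ = mean F h * (Qt - nn F φ) := by ring
    rw [e1, abs_mul, abs_of_nonneg hmn.1]
    refine (mul_le_of_le_one_left (abs_nonneg _) hmn.2).trans ?_
    rw [abs_le]
    constructor <;> nlinarith
  have g4 := abs_le.1 g3
  have g5 : e * Qt ≤ e * nn F φ := mul_le_mul_of_nonneg_left hQ1 he.le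
  have g6 : R ^ (-d3) * nn F φ ≤ e / 4 * nn F φ := mul_le_mul_of_nonneg_right s3 hnn0
  have g7 : R ^ (-d8) * nn F φ ≤ e / 4 * nn F φ := mul_le_mul_of_nonneg_right s8 hnn0
  have g8 : (3 * e + (2 * L + 1) / n) * nn F φ = e * nn F φ + ((2 * L + 1) / n + e) * nn F φ + e * nn F φ := by ring
  have g9 : 0 ≤ e * nn F φ := mul_nonneg he.le hnn0
  rw [g8, abs_le]
  constructor <;> linarith

end Pool.Agent.VN
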